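import Pool.Agent.H77.Ins0013

set_option autoImplicit false

open MeasureTheory

namespace Pool.Agent.Results.MP_0013e0_an.UnbranchedInfiniteLength

/-- The open unit disc of the complex plane. -/
def disc : Set ℂ := {z : ℂ | ‖z‖ < 1}

/-- `f` is a non-constant bounded analytic function on the open unit disc. -/
structure IsNonconstBoundedAnalytic (f : ℂ → ℂ) : Prop where
  analytic : ∀ z ∈ disc, AnalyticAt ℂ f z
  bounded : ∃ M : ℝ, ∀ z ∈ disc, ‖f z‖ ≤ M
  nonconst : ∃ z ∈ disc, ∃ w ∈ disc, f z ≠ f w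

/-- The level set of `f` at height `c`: the points `z` of the disc with `|f z| = c`. -/
def levelSet (f : ℂ → ℂ) (c : ℝ) : Set ℂ := {z : ℂ | z ∈ disc ∧ ‖f z‖ = c}

/-- `Γ` is a connected component of `S`: a maximal (nonempty) connected subset of `S`. -/
def IsComponentOf (Γ S : Set ℂ) : Prop :=
  IsConnected Γ ∧ Γ ⊆ S ∧ ∀ T : Set ℂ, IsConnected T → T ⊆ S → Γ ⊆ T → T = Γ

/-- `Γ` is unbranched for `f`: it contains no zero of the derivative of `f`. -/
def IsUnbranched (f : ℂ → ℂ) (Γ : Set ℂ) : Prop := ∀ z ∈ Γ, deriv f z ≠ 0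

/-- The length of `Γ`: its one-dimensional Hausdorff measure. -/
noncomputable def length (Γ : Set ℂ) : ENNReal := Measure.hausdorffMeasure (1 : ℝ) Γ

/-- There are a non-constant bounded analytic function `f` on the disc, without zeros there, and a
height `c > 0` such that some connected component of the level set of `f` at height `c` is unbranched
and has infinite length; moreover no point of this whole level set is a zero of the derivative. -/
theorem result :
    ∃ (f : ℂ → ℂ) (c : ℝ) (Γ : Set ℂ),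
      IsNonconstBoundedAnalytic f ∧ (∀ z ∈ disc, f z ≠ 0) ∧ 0 < c ∧
      IsComponentOf Γ (levelSet f c) ∧ IsUnbranched f Γ ∧ length Γ = ⊤ ∧
      IsUnbranched f (levelSet f c) := by
  obtain ⟨f, hfd, hfb, hf0, hfr, z₀, hz₀, hfm⟩ := Pool.Agent.H77.Ins0013.main_disc_strong
  have hdisc : disc = Metric.ball (0 : ℂ) 1 := by
    ext z
    simp [disc]
  have hlev : levelSet f 1 = {z : ℂ | z ∈ Metric.ball (0 : ℂ) 1 ∧ ‖f z‖ = 1} := by
    rw [levelSet, hdisc]
  refine ⟨f, 1, connectedComponentIn (levelSet f 1) z₀, ⟨?_, ⟨Real.exp 3, ?_⟩, ?_⟩, ?_, one_pos,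
    ⟨?_, ?_, ?_⟩, ?_, ?_, ?_⟩
  · intro z hz
    rw [hdisc] at hz
    exact hfd.analyticAt (Metric.isOpen_ball.mem_nhds hz)
  · intro z hz
    rw [hdisc] at hz
    exact hfb z hz
  · by_contra hcon
    push Not at hcon
    apply hfr z₀ hz₀
    have hz : z₀ ∈ disc := by rw [hdisc]; exact hz₀.1
    have hev : f =ᶠ[nhds z₀] fun _ => f z₀ := by
      filter_upwards [Metric.isOpen_ball.mem_nhds hz₀.1] with w hw
      rw [← hdisc] at hw
      exact hcon w hw z₀ hz
    rw [hev.deriv_eq]
    exact deriv_const _ _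
  · intro z hz
    rw [hdisc] at hz
    exact hf0 z hz
  · rw [hlev]
    exact ⟨⟨z₀, mem_connectedComponentIn hz₀⟩, isPreconnected_connectedComponentIn⟩
  · exact connectedComponentIn_subset _ _
  · intro T hT hTS hsub
    rw [hlev] at hsub hTS ⊢
    apply Set.Subset.antisymm _ hsub
    exact hT.isPreconnected.subset_connectedComponentIn (hsub (mem_connectedComponentIn hz₀)) hTS
  · intro z hz
    have h1 := connectedComponentIn_subset _ _ hz
    rw [hlev] at h1
    exact hfr z h1
  · rw [length, hlev]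
    exact hfm
  · intro z hz
    rw [hlev] at hz
    exact hfr z hz

end Pool.Agent.Results.MP_0013e0_an.UnbranchedInfiniteLength
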